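import Pool.Agent.Lib.MP_fadef1_lc.Pat

/-! Primcodable instances for the structures of the generator. -/

namespace Pool.Agent.MP_fadef1_lc

/-- events as triples -/
def Ev.equiv : Ev ≃ ℕ × ℕ × ℕ where
  toFun e := (e.t, e.x, e.y)
  invFun p := ⟨p.1, p.2.1, p.2.2⟩
  left_inv _ := rfl
  right_inv _ := rfl

/-- layers as quadruples -/
def Layer.equiv : Layer ≃ ℕ × ℕ × ℕ × ℕ where
  toFun l := (l.t, l.a, l.b, l.c)
  invFun p := ⟨p.1, p.2.1, p.2.2.1, p.2.2.2⟩
  left_inv _ := rfl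
  right_inv _ := rfl

instance : Primcodable Ev := Primcodable.ofEquiv _ Ev.equiv
instance : Primcodable Layer := Primcodable.ofEquiv _ Layer.equiv

/-- parameters as tuples -/
def Par.equiv : Par ≃ (ℕ × ℕ × ℕ × ℕ) × List Layer × List Layer × List Layer where
  toFun P := ((P.N, P.M, P.Hs, P.QQ), P.cE, P.cX, P.cY)
  invFun p := ⟨p.1.1, p.1.2.1, p.1.2.2.1, p.1.2.2.2, p.2.1, p.2.2.1, p.2.2.2⟩
  left_inv _ := rfl
  right_inv _ := rfl

instance : Primcodable Par := Primcodable.ofEquiv _ Par.equiv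

/-- `Primrec.of_equiv`, `Primrec.fst`, … -/
theorem ev_proj : Primrec Ev.t ∧ Primrec Ev.x ∧ Primrec Ev.y := by
  have h : Primrec Ev.equiv := Primrec.of_equiv
  exact ⟨Primrec.fst.comp h, Primrec.fst.comp (Primrec.snd.comp h),
    Primrec.snd.comp (Primrec.snd.comp h)⟩

/-- `Primrec.of_equiv_symm` -/
theorem ev_mk : Primrec fun p : ℕ × ℕ × ℕ => (⟨p.1, p.2.1, p.2.2⟩ : Ev) := by
  have h : Primrec Ev.equiv.symm := Primrec.of_equiv_symm
  exact h

theorem layer_proj : Primrec Layer.t ∧ Primrec Layer.a ∧ Primrec Layer.b ∧ Primrec Layer.c := by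
  have h : Primrec Layer.equiv := Primrec.of_equiv
  exact ⟨Primrec.fst.comp h, Primrec.fst.comp (Primrec.snd.comp h),
    Primrec.fst.comp (Primrec.snd.comp (Primrec.snd.comp h)),
    Primrec.snd.comp (Primrec.snd.comp (Primrec.snd.comp h))⟩

theorem layer_mk : Primrec fun p : ℕ × ℕ × ℕ × ℕ => (⟨p.1, p.2.1, p.2.2.1, p.2.2.2⟩ : Layer) := by
  have h : Primrec Layer.equiv.symm := Primrec.of_equiv_symm
  exact h

theorem par_proj : Primrec Par.N ∧ Primrec Par.M ∧ Primrec Par.Hs ∧ Primrec Par.QQ ∧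
    Primrec Par.cE ∧ Primrec Par.cX ∧ Primrec Par.cY := by
  have h : Primrec Par.equiv := Primrec.of_equiv
  have h1 : Primrec fun P => (Par.equiv P).1 := Primrec.fst.comp h
  have h2 : Primrec fun P => (Par.equiv P).2 := Primrec.snd.comp h
  have h3 : Primrec fun P => (Par.equiv P).1.2 := Primrec.snd.comp h1
  have h4 : Primrec fun P => (Par.equiv P).1.2.2 := Primrec.snd.comp h3
  have h5 : Primrec fun P => (Par.equiv P).2.2 := Primrec.snd.comp h2
  have a1 : Primrec Par.N := (Primrec.fst.comp h1).of_eq fun _ => rfl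
  have a2 : Primrec Par.M := (Primrec.fst.comp h3).of_eq fun _ => rfl
  have a3 : Primrec Par.Hs := (Primrec.fst.comp h4).of_eq fun _ => rfl
  have a4 : Primrec Par.QQ := (Primrec.snd.comp h4).of_eq fun _ => rfl
  have a5 : Primrec Par.cE := (Primrec.fst.comp h2).of_eq fun _ => rfl
  have a6 : Primrec Par.cX := (Primrec.fst.comp h5).of_eq fun _ => rfl
  have a7 : Primrec Par.cY := (Primrec.snd.comp h5).of_eq fun _ => rfl
  exact ⟨a1, a2, a3, a4, a5, a6, a7⟩

theorem par_mk : Primrec fun p : (ℕ × ℕ × ℕ × ℕ) × List Layer × List Layer × List Layer =>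
    (⟨p.1.1, p.1.2.1, p.1.2.2.1, p.1.2.2.2, p.2.1, p.2.2.1, p.2.2.2⟩ : Par) := by
  have h : Primrec Par.equiv.symm := Primrec.of_equiv_symm
  exact h

end Pool.Agent.MP_fadef1_lc
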